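import Mathlib

/-!
# Strongly equistable graphs are not closed under substitution

Let `F` be the triangle-free graph with vertices `u, w, p, q, r` (pairwise non-adjacent except for
the edge `uw`), a pendant vertex at each of them, and vertices `z1 ~ w, p, q`, `z2 ~ w, q, r`,
`z3 ~ u, p, q`, `z4 ~ u, q, r`. Let `G` be the complement of the line graph of `F`. The maximal
stable sets of `G` are the nine stars of `F`, `G` is strongly equistable, and every weighting
giving weight `1` to the nine stars satisfies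
`φ (the five pendant edges) + 2 φ (uw) = 5 - 4 = 1`. So if the vertex `uw` of `G` is replaced by
two adjacent vertices, these two and the five pendant edges get weight `1` in every weighting that
gives weight `1` to the maximal stable sets, although they do not form a stable set.
-/

set_option autoImplicit false

namespace Pool.Agent.Results.MP_89a31a_co.NotClosedUnderSubst

/-- `S` is a maximal stable set of `G`: its vertices are pairwise non-adjacent and no other stable
set properly contains it. -/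
def MaxStable {V : Type} (G : SimpleGraph V) (S : Finset V) : Prop :=
  Maximal (fun S : Finset V => G.IsIndepSet (S : Set V)) S

/-- `G` is equistable: some positive vertex weighting gives total weight `1` to exactly the maximal
stable sets. -/
def Equistable {V : Type} (G : SimpleGraph V) : Prop :=
  ∃ φ : V → ℝ, (∀ x, 0 < φ x) ∧ ∀ S : Finset V, MaxStable G S ↔ ∑ x ∈ S, φ x = 1

/-- `G` is strongly equistable: for each nonempty set `T` of vertices that is not a maximal stable
set and each real `γ ≤ 1`, some positive vertex weighting gives total weight `1` to each maximal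
stable set and a total weight different from `γ` to `T`. -/
def StronglyEquistable {V : Type} (G : SimpleGraph V) : Prop :=
  ∀ T : Finset V, T.Nonempty → ¬ MaxStable G T → ∀ γ : ℝ, γ ≤ 1 →
    ∃ φ : V → ℝ, (∀ x, 0 < φ x) ∧ (∀ S : Finset V, MaxStable G S → ∑ x ∈ S, φ x = 1) ∧
      ∑ x ∈ T, φ x ≠ γ

/-- The graph `G[v ← H]`: the vertex `v` of `G` is replaced by a copy of `H`, each vertex of which
is joined to all the neighbours of `v` in `G`. -/
def substitute {V W : Type} (G : SimpleGraph V) (v : V) (H : SimpleGraph W) :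
    SimpleGraph ({x : V // x ≠ v} ⊕ W) where
  Adj a b := match a, b with
    | Sum.inl x, Sum.inl y => G.Adj x y
    | Sum.inl x, Sum.inr _ => G.Adj x v
    | Sum.inr _, Sum.inl y => G.Adj y v
    | Sum.inr a, Sum.inr b => H.Adj a b
  symm := ⟨by
    intro a b h
    rcases a with x | x <;> rcases b with y | y
    · exact G.adj_symm h
    · exact h
    · exact h
    · exact H.adj_symm h⟩
  loopless := ⟨by
    intro a h
    rcases a with x | x
    · exact G.irrefl h
    · exact H.irrefl h⟩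

/-! ### General facts -/

theorem maxStable_iff {V : Type} [DecidableEq V] (G : SimpleGraph V) (S : Finset V) :
    MaxStable G S ↔ (∀ x ∈ S, ∀ y ∈ S, ¬ G.Adj x y) ∧ ∀ x, x ∉ S → ∃ y ∈ S, G.Adj x y := by
  constructor
  · rintro ⟨h1, h2⟩
    have h1' : ∀ x ∈ S, ∀ y ∈ S, ¬ G.Adj x y := by
      intro x hx y hy hxy
      exact h1 hx hy hxy.ne hxy
    refine ⟨h1', fun x hx => ?_⟩
    by_contra hcon
    push Not at hcon
    have h3 : G.IsIndepSet ((insert x S : Finset V) : Set V) := by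
      intro a ha b hb hab hadj
      rw [Finset.mem_coe, Finset.mem_insert] at ha hb
      rcases ha with rfl | ha
      · rcases hb with rfl | hb
        · exact hab rfl
        · exact hcon b hb hadj
      · rcases hb with rfl | hb
        · exact hcon a ha hadj.symm
        · exact h1' a ha b hb hadj
    exact hx (h2 h3 (Finset.subset_insert x S) (Finset.mem_insert_self x S))
  · rintro ⟨h1, h2⟩
    refine ⟨fun x hx y hy _ hadj => h1 x hx y hy hadj, fun T hT hST x hx => ?_⟩
    by_contra hxS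
    obtain ⟨y, hy, hxy⟩ := h2 x hxS
    exact hT hx (hST hy) hxy.ne hxy

/-! ### The graph on 18 vertices -/

/-- The nine stars of `F`. -/
def star : Fin 9 → Finset (Fin 18) :=
  ![{0, 1, 12, 15}, {0, 2, 6, 9}, {3, 7, 13}, {4, 8, 10, 14, 16}, {5, 11, 17}, {6, 7, 8},
    {9, 10, 11}, {12, 13, 14}, {15, 16, 17}]

/-- The complement of the line graph of `F`. -/
def graph : SimpleGraph (Fin 18) where
  Adj e f := e ≠ f ∧ ∀ i, ¬ (e ∈ star i ∧ f ∈ star i)
  symm := ⟨fun _ _ h => ⟨h.1.symm, fun i hi => h.2 i ⟨hi.2, hi.1⟩⟩⟩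
  loopless := ⟨fun _ h => h.1 rfl⟩

instance : DecidableRel graph.Adj := fun e f =>
  inferInstanceAs (Decidable (e ≠ f ∧ ∀ i, ¬ (e ∈ star i ∧ f ∈ star i)))

theorem star_maxStable (i : Fin 9) : MaxStable graph (star i) := by
  rw [maxStable_iff]
  revert i
  decide +kernel

theorem triple : ∀ e f g : Fin 18, e ≠ f → ¬ graph.Adj e f → ¬ graph.Adj e g →
    ¬ graph.Adj f g → ∀ i, e ∈ star i → f ∈ star i → g ∈ star i := by
  decide +kernel

theorem single : ∀ e : Fin 18, ∃ i, e ∈ star i := by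
  decide +kernel

theorem pair : ∀ e f : Fin 18, e ≠ f → ¬ graph.Adj e f → ∃ i, e ∈ star i ∧ f ∈ star i := by
  decide +kernel

theorem eq_star {S : Finset (Fin 18)} (hS : MaxStable graph S) : ∃ i, S = star i := by
  have h := (maxStable_iff graph S).1 hS
  have key : ∃ i, S ⊆ star i := by
    by_cases h1 : ∃ e ∈ S, ∃ f ∈ S, e ≠ f
    · obtain ⟨e, he, f, hf, hef⟩ := h1
      obtain ⟨i, hi, hj⟩ := pair e f hef (h.1 e he f hf)
      exact ⟨i, fun g hg => triple e f g hef (h.1 e he f hf) (h.1 e he g hg) (h.1 f hf g hg)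
        i hi hj⟩
    · push Not at h1
      by_cases h2 : S.Nonempty
      · obtain ⟨e, he⟩ := h2
        obtain ⟨i, hi⟩ := single e
        exact ⟨i, fun g hg => (h1 e he g hg) ▸ hi⟩
      · rw [Finset.not_nonempty_iff_eq_empty] at h2
        exact ⟨0, by rw [h2]; exact Finset.empty_subset _⟩
  obtain ⟨i, hi⟩ := key
  exact ⟨i, le_antisymm hi (hS.2 (star_maxStable i).1 hi)⟩

/-- Ten weightings with values in hundredths. -/
def W : Fin 10 → Fin 18 → ℕ :=
  ![![5, 5, 5, 10, 60, 10, 45, 45, 10, 45, 10, 45, 45, 45, 10, 45, 10, 45],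
    ![6, 4, 4, 10, 60, 10, 45, 45, 10, 45, 10, 45, 45, 45, 10, 45, 10, 45],
    ![5, 5, 4, 11, 60, 10, 46, 44, 10, 45, 10, 45, 45, 45, 10, 45, 10, 45],
    ![5, 5, 5, 9, 61, 10, 45, 46, 9, 45, 10, 45, 45, 45, 10, 45, 10, 45],
    ![5, 5, 4, 10, 61, 10, 45, 45, 10, 46, 9, 45, 45, 45, 10, 45, 10, 45],
    ![5, 5, 5, 10, 59, 11, 45, 45, 10, 45, 11, 44, 45, 45, 10, 45, 10, 45],
    ![5, 4, 5, 11, 60, 10, 45, 45, 10, 45, 10, 45, 46, 44, 10, 45, 10, 45],
    ![5, 5, 5, 9, 61, 10, 45, 45, 10, 45, 10, 45, 45, 46, 9, 45, 10, 45],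
    ![5, 4, 5, 10, 61, 10, 45, 45, 10, 45, 10, 45, 45, 45, 10, 46, 9, 45],
    ![5, 5, 5, 10, 59, 11, 45, 45, 10, 45, 10, 45, 45, 45, 10, 45, 11, 44]]

theorem W_pos : ∀ j x, 0 < W j x := by decide +kernel

theorem W_star : ∀ j i, ∑ x ∈ star i, W j x = 100 := by decide +kernel

/-- The weightings of `G`. -/
noncomputable def φ (j : Fin 10) (x : Fin 18) : ℝ := (W j x : ℝ) / 100

theorem φ_sum (j : Fin 10) (T : Finset (Fin 18)) :
    ∑ x ∈ T, φ j x = ((∑ x ∈ T, W j x : ℕ) : ℝ) / 100 := by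
  unfold φ
  rw [Nat.cast_sum, Finset.sum_div]

theorem φ_pos (j : Fin 10) (x : Fin 18) : 0 < φ j x := by
  unfold φ
  have := W_pos j x
  positivity

theorem φ_star (j : Fin 10) (S : Finset (Fin 18)) (hS : MaxStable graph S) :
    ∑ x ∈ S, φ j x = 1 := by
  obtain ⟨i, rfl⟩ := eq_star hS
  rw [φ_sum, W_star]
  norm_num

/-- The finite check. -/
theorem key : ∀ a0 a1 a2 a3 a4 : Bool,
    ∀ e, Bool.toNat e = a0.toNat + a1.toNat →
    ∀ x6 x7, Bool.toNat x6 + a2.toNat = Bool.toNat x7 + a1.toNat →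
    ∀ x8, x7.toNat + a3.toNat = Bool.toNat x8 + a2.toNat →
    ∀ x9 x10, Bool.toNat x9 + a3.toNat = Bool.toNat x10 + a1.toNat →
    ∀ x11, x10.toNat + a4.toNat = Bool.toNat x11 + a3.toNat →
    ∀ x12 x13, Bool.toNat x12 + a2.toNat = Bool.toNat x13 + a0.toNat →
    ∀ x14, x13.toNat + a3.toNat = Bool.toNat x14 + a2.toNat →
    ∀ x15 x16, Bool.toNat x15 + a3.toNat = Bool.toNat x16 + a0.toNat →
    ∀ x17, x16.toNat + a4.toNat = Bool.toNat x17 + a3.toNat →
    5 * e.toNat + 5 * a0.toNat + 5 * a1.toNat + 10 * a2.toNat + 60 * a3.toNat + 10 * a4.toNat +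
      45 * x6.toNat + 45 * x7.toNat + 10 * x8.toNat + 45 * x9.toNat + 10 * x10.toNat +
      45 * x11.toNat + 45 * x12.toNat + 45 * x13.toNat + 10 * x14.toNat + 45 * x15.toNat +
      10 * x16.toNat + 45 * x17.toNat ≤ 100 →
    (∀ k, ![e, a0, a1, a2, a3, a4, x6, x7, x8, x9, x10, x11, x12, x13, x14, x15, x16, x17] k
      = false) ∨
    ∃ i, ∀ k, ![e, a0, a1, a2, a3, a4, x6, x7, x8, x9, x10, x11, x12, x13, x14, x15, x16, x17] k
      = decide (k ∈ star i) := by
  decide +kernel

theorem W_sum (j : Fin 10) (T : Finset (Fin 18)) :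
    ∑ x ∈ T, W j x = ∑ x, W j x * (decide (x ∈ T)).toNat := by
  rw [← Finset.sum_subset (Finset.subset_univ T)]
  · refine Finset.sum_congr rfl fun x hx => ?_
    simp [hx]
  · intro x _ hx
    simp [hx]

theorem expand (f : Fin 18 → ℕ) : ∑ x, f x = f 0 + f 1 + f 2 + f 3 + f 4 + f 5 + f 6 + f 7 +
    f 8 + f 9 + f 10 + f 11 + f 12 + f 13 + f 14 + f 15 + f 16 + f 17 := by
  simp only [Fin.sum_univ_castSucc, Finset.univ_eq_empty, Finset.sum_empty, zero_add]
  rfl

theorem stronglyEquistable_graph : StronglyEquistable graph := by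
  intro T hT hT' γ hγ
  by_contra hcon
  push Not at hcon
  have h1 : ∀ j, ∑ x ∈ T, φ j x = γ := fun j => hcon (φ j) (φ_pos j) (φ_star j)
  have h2 : ∀ j, ∑ x ∈ T, W j x = ∑ x ∈ T, W 0 x := by
    intro j
    have h := (h1 j).trans (h1 0).symm
    rw [φ_sum, φ_sum] at h
    have h' : ((∑ x ∈ T, W j x : ℕ) : ℝ) = ((∑ x ∈ T, W 0 x : ℕ) : ℝ) := by linarith
    exact_mod_cast h'
  have h3 : ∑ x ∈ T, W 0 x ≤ 100 := by
    have h := h1 0
    rw [φ_sum] at h
    have h' : ((∑ x ∈ T, W 0 x : ℕ) : ℝ) ≤ 100 := by linarith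
    exact_mod_cast h'
  obtain ⟨t, ht⟩ : ∃ t : Fin 18 → Bool, ∀ x, decide (x ∈ T) = t x := ⟨_, fun x => rfl⟩
  simp only [W_sum, ht, expand] at h2 h3
  have e0 : 5 * (t 0).toNat + 5 * (t 1).toNat + 5 * (t 2).toNat + 10 * (t 3).toNat +
      60 * (t 4).toNat + 10 * (t 5).toNat + 45 * (t 6).toNat + 45 * (t 7).toNat +
      10 * (t 8).toNat + 45 * (t 9).toNat + 10 * (t 10).toNat + 45 * (t 11).toNat +
      45 * (t 12).toNat + 45 * (t 13).toNat + 10 * (t 14).toNat + 45 * (t 15).toNat +
      10 * (t 16).toNat + 45 * (t 17).toNat ≤ 100 := h3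
  have e1 := h2 1
  have e2 := h2 2
  have e3 := h2 3
  have e4 := h2 4
  have e5 := h2 5
  have e6 := h2 6
  have e7 := h2 7
  have e8 := h2 8
  have e9 := h2 9
  clear h2 h3
  simp only [W, Matrix.cons_val, Fin.isValue] at e1 e2 e3 e4 e5 e6 e7 e8 e9
  have h := key (t 1) (t 2) (t 3) (t 4) (t 5) (t 0) (by omega) (t 6) (t 7) (by omega) (t 8)
    (by omega) (t 9) (t 10) (by omega) (t 11) (by omega) (t 12) (t 13) (by omega) (t 14)
    (by omega) (t 15) (t 16) (by omega) (t 17) (by omega) (by omega)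
  have ht2 : ![t 0, t 1, t 2, t 3, t 4, t 5, t 6, t 7, t 8, t 9, t 10, t 11, t 12, t 13, t 14,
      t 15, t 16, t 17] = t := by
    funext k
    fin_cases k <;> rfl
  rw [ht2] at h
  rcases h with h | ⟨i, hi⟩
  · obtain ⟨x, hx⟩ := hT
    have := h x
    rw [← ht x] at this
    exact absurd hx (by simpa using this)
  · refine hT' ?_
    have : T = star i := by
      ext x
      have := hi x
      rw [← ht x] at this
      simpa using this
    rw [this]
    exact star_maxStable i

theorem stronglyEquistable_K2 : StronglyEquistable (⊤ : SimpleGraph (Fin 2)) := by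
  have hms : ∀ S : Finset (Fin 2), MaxStable (⊤ : SimpleGraph (Fin 2)) S → S = {0} ∨ S = {1} := by
    intro S hS
    rw [maxStable_iff] at hS
    revert S
    decide
  have hms' : ∀ x : Fin 2, MaxStable (⊤ : SimpleGraph (Fin 2)) {x} := by
    intro x
    rw [maxStable_iff]
    revert x
    decide
  intro T hT hT' γ hγ
  refine ⟨fun _ => 1, fun _ => one_pos, fun S hS => ?_, ?_⟩
  · rcases hms S hS with rfl | rfl <;> simp
  · have h0 : T ≠ {0} := fun h => hT' (h ▸ hms' 0)
    have h1 : T ≠ {1} := fun h => hT' (h ▸ hms' 1)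
    have : T = Finset.univ := by
      clear hT'
      revert T
      decide
    rw [this]
    norm_num
    linarith

/-- The graph with 19 vertices. -/
abbrev big : SimpleGraph ({x : Fin 18 // x ≠ 0} ⊕ Fin 2) :=
  substitute graph 0 (⊤ : SimpleGraph (Fin 2))

instance instDec (a b : {x : Fin 18 // x ≠ 0} ⊕ Fin 2) : Decidable (big.Adj a b) :=
  match a, b with
  | Sum.inl x, Sum.inl y => inferInstanceAs (Decidable (graph.Adj x y))
  | Sum.inl x, Sum.inr _ => inferInstanceAs (Decidable (graph.Adj x 0))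
  | Sum.inr _, Sum.inl y => inferInstanceAs (Decidable (graph.Adj y 0))
  | Sum.inr a, Sum.inr b => inferInstanceAs (Decidable ((⊤ : SimpleGraph (Fin 2)).Adj a b))

/-- The maximal stable sets of the graph with 19 vertices that are used. -/
def bstar (i : Fin 9) : Finset ({x : Fin 18 // x ≠ 0} ⊕ Fin 2) :=
  Finset.univ.filter fun x => Sum.elim (fun y : {x : Fin 18 // x ≠ 0} => decide (y.1 ∈ star i))
    (fun a : Fin 2 => decide ((a = 0 ∧ i = 0) ∨ (a = 1 ∧ i = 1))) x = true

theorem bstar_stable : ∀ i, ∀ x ∈ bstar i, ∀ y ∈ bstar i, ¬ big.Adj x y := by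
  decide +kernel

theorem bstar_dominating : ∀ i, ∀ x, x ∉ bstar i → ∃ y ∈ bstar i, big.Adj x y := by
  decide +kernel

theorem bstar_maxStable (i : Fin 9) : MaxStable big (bstar i) := by
  rw [maxStable_iff]
  exact ⟨bstar_stable i, bstar_dominating i⟩

/-- The set of weight `1` that is not stable. -/
def bad : Finset ({x : Fin 18 // x ≠ 0} ⊕ Fin 2) :=
  Finset.univ.filter fun x => Sum.elim (fun y : {x : Fin 18 // x ≠ 0} => decide (y.1 ≤ 5))
    (fun _ : Fin 2 => true) x = true

theorem bad_not : ¬ MaxStable big bad := by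
  rw [maxStable_iff]
  intro h
  have h1 : Sum.inr 0 ∈ bad := by decide +kernel
  have h2 : Sum.inr 1 ∈ bad := by decide +kernel
  have h3 : big.Adj (Sum.inr 0) (Sum.inr 1) := by decide +kernel
  exact h.1 _ h1 _ h2 h3

theorem bad_nonempty : bad.Nonempty := ⟨Sum.inr 0, by decide +kernel⟩

theorem count : ∀ x, (if x ∈ bad then 1 else 0) + ((if x ∈ bstar 5 then 1 else 0) +
    (if x ∈ bstar 6 then 1 else 0) + (if x ∈ bstar 7 then 1 else 0) +
    (if x ∈ bstar 8 then 1 else 0)) = (if x ∈ bstar 0 then 1 else 0) +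
    (if x ∈ bstar 1 then 1 else 0) + (if x ∈ bstar 2 then 1 else 0) +
    (if x ∈ bstar 3 then 1 else 0) + (if x ∈ bstar 4 then 1 else 0) := by
  decide +kernel

theorem sum_bad (φ : {x : Fin 18 // x ≠ 0} ⊕ Fin 2 → ℝ)
    (h : ∀ S : Finset ({x : Fin 18 // x ≠ 0} ⊕ Fin 2), MaxStable big S → ∑ x ∈ S, φ x = 1) :
    ∑ x ∈ bad, φ x = 1 := by
  have hS : ∀ S : Finset ({x : Fin 18 // x ≠ 0} ⊕ Fin 2),
      ∑ x ∈ S, φ x = ∑ x, ((if x ∈ S then 1 else 0 : ℕ) : ℝ) * φ x := by
    intro S
    simp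
  have h1 : ∑ x ∈ bad, φ x + (∑ x ∈ bstar 5, φ x + ∑ x ∈ bstar 6, φ x + ∑ x ∈ bstar 7, φ x +
      ∑ x ∈ bstar 8, φ x) = ∑ x ∈ bstar 0, φ x + ∑ x ∈ bstar 1, φ x + ∑ x ∈ bstar 2, φ x +
      ∑ x ∈ bstar 3, φ x + ∑ x ∈ bstar 4, φ x := by
    simp only [hS, ← Finset.sum_add_distrib, ← add_mul]
    refine Finset.sum_congr rfl fun x _ => ?_
    congr 1
    exact_mod_cast count x
  simp only [h _ (bstar_maxStable _)] at h1
  linarith

/-- There are a strongly equistable graph `G` on 18 vertices and a vertex `v` of `G` such that the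
substitution of the (strongly equistable) graph with two adjacent vertices for `v` yields a graph
that is not equistable, and not strongly equistable. -/
theorem result : ∃ (G : SimpleGraph (Fin 18)) (v : Fin 18), StronglyEquistable G ∧
    StronglyEquistable (⊤ : SimpleGraph (Fin 2)) ∧
    ¬ StronglyEquistable (substitute G v (⊤ : SimpleGraph (Fin 2))) ∧
    ¬ Equistable (substitute G v (⊤ : SimpleGraph (Fin 2))) := by
  refine ⟨graph, 0, stronglyEquistable_graph, stronglyEquistable_K2, fun h => ?_, ?_⟩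
  · obtain ⟨φ, _, h1, h2⟩ := h bad bad_nonempty bad_not 1 le_rfl
    exact h2 (sum_bad φ h1)
  · rintro ⟨φ, _, h1⟩
    exact bad_not ((h1 bad).2 (sum_bad φ fun S hS => (h1 S).1 hS))

end Pool.Agent.Results.MP_89a31a_co.NotClosedUnderSubst
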